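import Pool.Agent.W37.RK.BL1

/-!
Project GB, piece CORE: the number of pairs (part D).
-/

set_option autoImplicit false

namespace Pool.Agent.E8helper23.GB

open Finset

lemma tau_sq (Y : ℕ) : ∑ h ∈ Icc 1 Y, ((h.divisors.card : ℕ) : ℝ) ^ 2 ≤ Y * (1 + Real.log Y) ^ 4 := by
  have h1 := W37.RK.sum_card_pow_div 2 Y
  calc ∑ h ∈ Icc 1 Y, ((h.divisors.card : ℕ) : ℝ) ^ 2
      ≤ ∑ h ∈ Icc 1 Y, (Y : ℝ) * (((h.divisors.card : ℕ) : ℝ) ^ 2 / h) := by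
        refine sum_le_sum fun h hh => ?_
        rw [mem_Icc] at hh
        have h0 : (0 : ℝ) < h := by exact_mod_cast hh.1
        have h2 : (h : ℝ) ≤ Y := by exact_mod_cast hh.2
        rw [mul_div_assoc', le_div_iff₀ h0, mul_comm]
        exact mul_le_mul_of_nonneg_right h2 (by positivity)
    _ = Y * ∑ h ∈ Icc 1 Y, (((h.divisors.card : ℕ) : ℝ) ^ 2 / h) := by rw [mul_sum]
    _ ≤ Y * (1 + Real.log Y) ^ 4 := mul_le_mul_of_nonneg_left h1 (by positivity)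

lemma sign_inj {a b : ℤ} (_ha : a ≠ 0) (_hb : b ≠ 0) (h1 : a.natAbs = b.natAbs)
    (h2 : (decide (0 < a)) = (decide (0 < b))) : a = b := by
  have h3 : (0 < a) ↔ (0 < b) := by
    rw [← decide_eq_true_iff (p := 0 < a), ← decide_eq_true_iff (p := 0 < b), h2]
  omega

/-- the number of representations -/
lemma rep_le (Z : Finset (ℤ × ℤ × ℤ)) (hZ : ∀ z ∈ Z, z.1 ≠ 0 ∧ z.2.2 ≠ 0) (p : ℤ × ℤ) (hp : p.2 - p.1 ≠ 0) :
    (Z.filter (fun z => (z.2.1, z.2.1 + z.2.2 * z.1) = p)).card ≤ 2 * ((p.2 - p.1).natAbs.divisors.card) := by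
  classical
  have h1 : (Z.filter (fun z => (z.2.1, z.2.1 + z.2.2 * z.1) = p)).card ≤
      ((p.2 - p.1).natAbs.divisors ×ˢ (univ : Finset Bool)).card := by
    apply card_le_card_of_injOn (fun z => (z.2.2.natAbs, decide (0 < z.2.2)))
    · intro z hz
      rw [mem_coe, mem_filter] at hz
      obtain ⟨h2, h3⟩ := hz
      rw [mem_coe, mem_product]
      refine ⟨?_, mem_univ _⟩
      rw [Nat.mem_divisors]
      refine ⟨?_, by rwa [Ne, Int.natAbs_eq_zero]⟩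
      rw [Int.natAbs_dvd_natAbs]
      rw [← h3]
      simp only [add_sub_cancel_left]
      exact dvd_mul_right _ _
    · intro z hz z' hz' h
      rw [mem_coe, mem_filter] at hz hz'
      have h2 := hz.2.trans hz'.2.symm
      simp only [Prod.mk.injEq] at h h2
      obtain ⟨h3, h4⟩ := h
      obtain ⟨h5, h6⟩ := h2
      have h7 := sign_inj (hZ z hz.1).2 (hZ z' hz'.1).2 h3 h4
      rw [h5, h7] at h6
      have h8 : z'.2.2 * z.1 = z'.2.2 * z'.1 := by linarith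
      have h9 := mul_left_cancel₀ (hZ z' hz'.1).2 h8
      exact Prod.ext h9 (Prod.ext h5 h7)
  rw [card_product] at h1
  simpa [mul_comm] using h1

lemma fin_D (c n s l : ℝ) (hn : 0 ≤ n) (hs : 0 ≤ s) (h1 : c ≤ 3 * n) (h2 : s ≤ n * l ^ 4) :
    c * (8 * s) ≤ 24 * n ^ 2 * l ^ 4 := by
  calc c * (8 * s) ≤ (3 * n) * (8 * s) := mul_le_mul_of_nonneg_right h1 (by positivity)
    _ ≤ (3 * n) * (8 * (n * l ^ 4)) := mul_le_mul_of_nonneg_left (by linarith) (by positivity)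
    _ = _ := by ring

theorem pairs_card (Z : Finset (ℤ × ℤ × ℤ)) (N : ℕ) (hN : 1 ≤ N)
    (hZ : ∀ z ∈ Z, |z.2.1| ≤ (N : ℤ) ∧ z.1 ≠ 0 ∧ z.2.2 ≠ 0 ∧ |z.2.2 * z.1| ≤ (N : ℤ)) :
    (Z.card : ℝ) ^ 2 ≤ ((Z.image (fun z => (z.2.1, z.2.1 + z.2.2 * z.1))).card : ℝ) *
      (24 * N ^ 2 * (1 + Real.log N) ^ 4) := by
  classical
  have hNr : (1 : ℝ) ≤ N := by exact_mod_cast hN
  set P := Z.image (fun z => (z.2.1, z.2.1 + z.2.2 * z.1)) with hP
  have hPm : ∀ p ∈ P, |p.1| ≤ (N : ℤ) ∧ p.2 - p.1 ≠ 0 ∧ |p.2 - p.1| ≤ (N : ℤ) := by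
    intro p hp
    rw [hP, mem_image] at hp
    obtain ⟨z, hz, rfl⟩ := hp
    obtain ⟨h1, h2, h3, h4⟩ := hZ z hz
    refine ⟨h1, ?_, ?_⟩
    · simp only [add_sub_cancel_left]
      exact mul_ne_zero h3 h2
    · simp only [add_sub_cancel_left]
      exact h4
  have h1 : (Z.card : ℝ) = ∑ p ∈ P, ((Z.filter (fun z => (z.2.1, z.2.1 + z.2.2 * z.1) = p)).card : ℝ) := by
    rw [hP]
    exact_mod_cast card_eq_sum_card_image (fun z : ℤ × ℤ × ℤ => (z.2.1, z.2.1 + z.2.2 * z.1)) Z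
  have h2 := sq_sum_le_card_mul_sum_sq (s := P)
    (f := fun p => ((Z.filter (fun z => (z.2.1, z.2.1 + z.2.2 * z.1) = p)).card : ℝ))
  rw [h1]
  refine h2.trans ?_
  apply mul_le_mul_of_nonneg_left _ (by positivity)
  have h3 : ∑ p ∈ P, ((Z.filter (fun z => (z.2.1, z.2.1 + z.2.2 * z.1) = p)).card : ℝ) ^ 2 ≤
      ∑ p ∈ P, (2 * ((p.2 - p.1).natAbs.divisors.card : ℝ)) ^ 2 := by
    apply sum_le_sum
    intro p hp
    apply pow_le_pow_left₀ (by positivity)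
    exact_mod_cast rep_le Z (fun z hz => ⟨(hZ z hz).2.1, (hZ z hz).2.2.1⟩) p (hPm p hp).2.1
  refine h3.trans ?_
  have h4 : ∑ p ∈ P, (2 * ((p.2 - p.1).natAbs.divisors.card : ℝ)) ^ 2 =
      ∑ x ∈ P.image (fun p => (p.1, (p.2 - p.1).natAbs, decide (0 < p.2 - p.1))),
        (2 * (x.2.1.divisors.card : ℝ)) ^ 2 := by
    symm
    apply sum_image
    intro p hp p' hp' h
    simp only [Prod.mk.injEq] at h
    obtain ⟨h5, h6, h7⟩ := h
    have h8 := sign_inj (hPm p hp).2.1 (hPm p' hp').2.1 h6 h7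
    exact Prod.ext h5 (by linarith)
  rw [h4]
  have h5 : P.image (fun p => (p.1, (p.2 - p.1).natAbs, decide (0 < p.2 - p.1))) ⊆
      Icc (-(N : ℤ)) N ×ˢ (Icc 1 N ×ˢ (univ : Finset Bool)) := by
    intro x hx
    rw [mem_image] at hx
    obtain ⟨p, hp, rfl⟩ := hx
    obtain ⟨h6, h7, h8⟩ := hPm p hp
    rw [mem_product, mem_product]
    refine ⟨mem_Icc.2 (abs_le.1 h6), mem_Icc.2 ⟨?_, ?_⟩, mem_univ _⟩
    · have := Int.natAbs_pos.2 h7
      exact this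
    · have := abs_le.1 h8
      simp only
      omega
  refine (sum_le_sum_of_subset_of_nonneg h5 (fun x _ _ => sq_nonneg _)).trans ?_
  have h9 : ∑ x ∈ Icc (-(N : ℤ)) N ×ˢ (Icc 1 N ×ˢ (univ : Finset Bool)), (2 * (x.2.1.divisors.card : ℝ)) ^ 2 =
      ∑ _h ∈ Icc (-(N : ℤ)) N, ∑ n ∈ Icc 1 N, ∑ _b ∈ (univ : Finset Bool), (2 * (n.divisors.card : ℝ)) ^ 2 := by
    rw [sum_product]
    apply sum_congr rfl
    intro h _
    rw [sum_product]
  rw [h9, sum_const]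
  have h6 : ∑ n ∈ Icc 1 N, ∑ _b ∈ (univ : Finset Bool), (2 * (n.divisors.card : ℝ)) ^ 2 =
      8 * ∑ n ∈ Icc 1 N, (n.divisors.card : ℝ) ^ 2 := by
    rw [mul_sum]
    apply sum_congr rfl
    intro n _
    rw [sum_const, card_univ, Fintype.card_bool, nsmul_eq_mul]
    push_cast
    ring
  rw [h6, nsmul_eq_mul]
  have h7 : ((Icc (-(N : ℤ)) N).card : ℝ) ≤ 3 * N := by
    rw [Int.card_Icc]
    have : ((N : ℤ) + 1 - -(N : ℤ)).toNat = 2 * N + 1 := by omega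
    rw [this]
    push_cast
    linarith
  have h8 := tau_sq N
  exact fin_D _ _ _ _ (by positivity) (sum_nonneg fun _ _ => sq_nonneg _) h7 h8

end Pool.Agent.E8helper23.GB
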