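import Pool.Agent.E8helper23.GB.CoreC
import Pool.Agent.E8helper23.GB.CoreD

/-!
Project GB, piece CORE: assembly.
-/

set_option autoImplicit false

namespace Pool.Agent.E8helper23.GB

open Finset
open Pool.Agent.E8helper66.GB (nn S_REC S_REL S_QUAD S_CORE)

lemma card_G_box (G : Finset (ℤ × ℤ × ℤ)) (N M L : ℕ)
    (hG : ∀ g ∈ G, |g.1| ≤ (L : ℤ) ∧ (M : ℤ) < g.2.1 ∧ g.2.1 ≤ 2 * M ∧ |g.2.2| ≤ (N : ℤ)) :
    G.card ≤ (2 * L + 1) * (M * (2 * N + 1)) := by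
  have h1 : G ⊆ Icc (-(L : ℤ)) L ×ˢ (Ioc (M : ℤ) (2 * M) ×ˢ Icc (-(N : ℤ)) N) := by
    intro g hg
    obtain ⟨h1, h2, h3, h4⟩ := hG g hg
    rw [mem_product, mem_product]
    exact ⟨mem_Icc.2 (abs_le.1 h1), mem_Ioc.2 ⟨h2, h3⟩, mem_Icc.2 (abs_le.1 h4)⟩
  have h2 := card_le_card h1
  rw [card_product, card_product, card_sym, card_sym, Int.card_Ioc] at h2
  have h3 : (2 * (M : ℤ) - M).toNat = M := by omega
  rw [h3] at h2
  exact h2

lemma YG_mem {G : Finset (ℤ × ℤ × ℤ)} {N M L S : ℕ} {δ : ℝ} (hδ : 0 < δ) (hM : 1 ≤ M) (hS : 1 ≤ S)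
    {y : ℤ × ℤ × ℤ} (hy : y ∈ YG G N M L S δ) :
    (∃ g ∈ G, g.2.2 = y.2.1) ∧ (∃ g ∈ G, g.2.2 = y.2.1 + y.2.2 * y.1) := by
  obtain ⟨k, h, s₁⟩ := y
  rw [YG, mem_filter] at hy
  have h1 := hy.2
  have hSr : (0 : ℝ) < S := by exact_mod_cast hS
  have hMr : (0 : ℝ) < M := by exact_mod_cast hM
  have h2 : (0 : ℝ) < ((Gs G M S δ (k, h, s₁)).card : ℝ) := lt_of_lt_of_le (by positivity) h1
  have h3 : 0 < (Gs G M S δ (k, h, s₁)).card := by exact_mod_cast h2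
  obtain ⟨s₂, hs₂⟩ := card_pos.1 h3
  rw [Gs, mem_filter] at hs₂
  have h4 : (0 : ℝ) < ((Am G M S (k, h, s₁) s₂).card : ℝ) := lt_of_lt_of_le (by positivity) hs₂.2
  have h5 : 0 < (Am G M S (k, h, s₁) s₂).card := by exact_mod_cast h4
  obtain ⟨m, hm⟩ := card_pos.1 h5
  obtain ⟨h6, h7, -, -⟩ := mem_Am hm
  exact ⟨⟨_, h6, rfl⟩, ⟨_, h7, rfl⟩⟩

/-- real inequalities -/
lemma num1 (T n m l s y z : ℝ) (B : ℕ) (hT : 2 ≤ T) (hn : 0 < n) (hm : 0 < m) (_hl : 0 < l) (hs : 0 < s)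
    (hml : m * l ≤ n) (hs1 : 64 * T ^ (2 * B + 60) ≤ s) (hs2 : m / (2 * T ^ (B + 1)) ≤ s)
    (hy : n ^ 2 * s / (279936 * T ^ 4 * m) ≤ y) (hz : y - 18 * l * n ≤ z) :
    n ^ 2 / T ^ (B + 26) ≤ z := by
  have hT0 : 0 < T := by linarith
  have hT1 : 1 ≤ T := by linarith
  have e1 : (2 : ℝ) ^ 19 ≤ T ^ 19 := pow_le_pow_left₀ (by norm_num) hT 19
  have h1 : n ^ 2 * s / (T ^ 23 * m) ≤ y := by
    refine le_trans ?_ hy
    apply div_le_div_of_nonneg_left (by positivity) (by positivity)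
    apply mul_le_mul_of_nonneg_right _ hm.le
    calc 279936 * T ^ 4 ≤ T ^ 19 * T ^ 4 := by
          apply mul_le_mul_of_nonneg_right _ (by positivity)
          linarith [show (279936 : ℝ) ≤ 2 ^ 19 by norm_num]
      _ = T ^ 23 := by rw [← pow_add]
  have h2 : 36 * T ^ 23 ≤ s := by
    refine le_trans ?_ hs1
    have : T ^ 23 ≤ T ^ (2 * B + 60) := pow_le_pow_right₀ hT1 (by omega)
    have h0 : 0 ≤ T ^ 23 := by positivity
    linarith
  have h3 : 18 * l * n ≤ n ^ 2 * s / (T ^ 23 * m) / 2 := by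
    rw [div_div, le_div_iff₀ (by positivity)]
    calc 18 * l * n * (T ^ 23 * m * 2) = (m * l) * (n * (36 * T ^ 23)) := by ring
      _ ≤ n * (n * s) := by
          apply mul_le_mul hml _ (by positivity) hn.le
          exact mul_le_mul_of_nonneg_left h2 hn.le
      _ = n ^ 2 * s := by ring
  have h4 : n ^ 2 * s / (T ^ 23 * m) / 2 ≤ z := by linarith
  refine le_trans ?_ h4
  have h5 : n ^ 2 * (m / (2 * T ^ (B + 1))) / (T ^ 23 * m) / 2 ≤ n ^ 2 * s / (T ^ 23 * m) / 2 := by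
    gcongr
  refine le_trans ?_ h5
  have h6 : n ^ 2 * (m / (2 * T ^ (B + 1))) / (T ^ 23 * m) / 2 = n ^ 2 / (4 * T ^ (B + 24)) := by
    rw [show B + 24 = (B + 1) + 23 by ring, pow_add T (B + 1) 23]
    field_simp
    norm_num
  rw [h6]
  apply div_le_div_of_nonneg_left (by positivity) (by positivity)
  have e2 : (2 : ℝ) ^ 2 ≤ T ^ 2 := pow_le_pow_left₀ (by norm_num) hT 2
  calc 4 * T ^ (B + 24) ≤ T ^ 2 * T ^ (B + 24) := by
        apply mul_le_mul_of_nonneg_right _ (by positivity)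
        linarith [show (4 : ℝ) ≤ 2 ^ 2 by norm_num]
    _ = T ^ (B + 26) := by
        rw [← pow_add]
        congr 1
        ring

lemma num2 (T n z p l : ℝ) (B : ℕ) (hT : 2 ≤ T) (hn : 0 < n) (hp : 0 ≤ p) (hl0 : 0 ≤ l) (hl : l ≤ T)
    (hz : n ^ 2 / T ^ (B + 26) ≤ z) (h : z ^ 2 ≤ p * (24 * n ^ 2 * (1 + l) ^ 4)) :
    n ^ 2 / T ^ (2 * B + 65) ≤ p := by
  have hT0 : 0 < T := by linarith
  have h1 : (1 + l) ^ 4 ≤ (T ^ 2) ^ 4 := by
    apply pow_le_pow_left₀ (by linarith)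
    nlinarith
  have e1 : (2 : ℝ) ^ 5 ≤ T ^ 5 := pow_le_pow_left₀ (by norm_num) hT 5
  have h2 : 24 * n ^ 2 * (1 + l) ^ 4 ≤ n ^ 2 * T ^ 13 := by
    calc 24 * n ^ 2 * (1 + l) ^ 4 ≤ (T ^ 5 * n ^ 2) * (T ^ 2) ^ 4 := by
          apply mul_le_mul _ h1 (by positivity) (by positivity)
          apply mul_le_mul_of_nonneg_right _ (by positivity)
          linarith [show (24 : ℝ) ≤ 2 ^ 5 by norm_num]
      _ = n ^ 2 * T ^ 13 := by ring
  have h3 : (n ^ 2 / T ^ (B + 26)) ^ 2 ≤ z ^ 2 := pow_le_pow_left₀ (by positivity) hz 2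
  have h4 : (n ^ 2 / T ^ (B + 26)) ^ 2 ≤ p * (n ^ 2 * T ^ 13) :=
    h3.trans (h.trans (mul_le_mul_of_nonneg_left h2 hp))
  have h5 : (n ^ 2 / T ^ (B + 26)) ^ 2 = n ^ 2 / T ^ (2 * B + 65) * (n ^ 2 * T ^ 13) := by
    rw [div_pow, ← pow_mul, ← pow_mul, div_mul_eq_mul_div, div_eq_div_iff (by positivity) (by positivity)]
    ring
  rw [h5] at h4
  exact le_of_mul_le_mul_right h4 (by positivity)

/-- GB-4 (CORE) -/
theorem t_CORE (hREC : S_REC) (hREL : S_REL) (hQUAD : S_QUAD) : S_CORE := by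
  classical
  obtain ⟨CR, hR⟩ := hREL
  have hR' : RelC CR := hR
  refine ⟨4 * (28 * CR) + 100, ?_⟩
  intro T N M L θ α G hT hlog hTM hML hMLN hGc hG
  set B := 28 * CR with hB
  have hT0 : 0 < T := by linarith
  have hT1 : 1 ≤ T := by linarith
  have hM1r : (1 : ℝ) ≤ M := (one_le_pow₀ hT1).trans hTM
  have hM1 : 1 ≤ M := by exact_mod_cast hM1r
  have hL1 : 1 ≤ L := hM1.trans hML
  have hN1 : 1 ≤ N := le_trans (Nat.mul_le_mul hM1 hL1) hMLN
  have hLr : (1 : ℝ) ≤ L := by exact_mod_cast hL1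
  have hNr : (1 : ℝ) ≤ N := by exact_mod_cast hN1
  have hMLNr : (M : ℝ) * L ≤ N := by exact_mod_cast hMLN
  have hx1 : T ^ (3 * B + 99) ≤ (M : ℝ) / T ^ (B + 1) := by
    rw [le_div_iff₀ (by positivity), ← pow_add]
    have : 3 * B + 99 + (B + 1) = 4 * B + 100 := by ring
    rw [this]
    exact hTM
  have hx2 : 1 ≤ (M : ℝ) / T ^ (B + 1) := (one_le_pow₀ hT1).trans hx1
  set S := ⌊(M : ℝ) / T ^ (B + 1)⌋₊ with hS
  have hST : (S : ℝ) ≤ M / T ^ (B + 1) := Nat.floor_le (by positivity)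
  have hS1 : 1 ≤ S := by
    rw [hS]
    exact (Nat.one_le_floor_iff _).2 hx2
  have hS1r : (1 : ℝ) ≤ S := by exact_mod_cast hS1
  have hST2 : (M : ℝ) / (2 * T ^ (B + 1)) ≤ S := by
    have h1 := Nat.lt_floor_add_one ((M : ℝ) / T ^ (B + 1))
    rw [← hS] at h1
    have h2 : (M : ℝ) / (2 * T ^ (B + 1)) = (M / T ^ (B + 1)) / 2 := by
      rw [div_div, mul_comm]
    rw [h2]
    linarith
  have hSM : S ≤ M := by
    have : (S : ℝ) ≤ M := by
      refine hST.trans (div_le_self (by positivity) (one_le_pow₀ hT1))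
    exact_mod_cast this
  have hbig : 64 * T ^ (2 * B + 60) ≤ S := by
    have h1 : (M : ℝ) / (2 * T ^ (B + 1)) = (M / T ^ (B + 1)) / 2 := by
      rw [div_div, mul_comm]
    rw [h1] at hST2
    have h2 : 128 * T ^ (2 * B + 60) ≤ T ^ (3 * B + 99) := by
      have e1 : (2 : ℝ) ^ 7 ≤ T ^ 7 := pow_le_pow_left₀ (by norm_num) hT 7
      calc 128 * T ^ (2 * B + 60) ≤ T ^ 7 * T ^ (2 * B + 60) := by
            apply mul_le_mul_of_nonneg_right _ (by positivity)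
            linarith [show (128 : ℝ) ≤ 2 ^ 7 by norm_num]
        _ = T ^ (7 + (2 * B + 60)) := by rw [← pow_add]
        _ ≤ T ^ (3 * B + 99) := pow_le_pow_right₀ hT1 (by omega)
    linarith
  have hLMN : (N : ℝ) / (9 * T) ≤ M * L := by
    have h1 := card_G_box G N M L (fun g hg => ⟨(hG g hg).1, (hG g hg).2.1, (hG g hg).2.2.1, (hG g hg).2.2.2.1⟩)
    have h2 : (G.card : ℝ) ≤ (2 * L + 1) * (M * (2 * N + 1)) := by exact_mod_cast h1
    have h3 : (2 * (L : ℝ) + 1) * (M * (2 * N + 1)) ≤ (3 * L) * (M * (3 * N)) := by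
      apply mul_le_mul
      · linarith
      · exact mul_le_mul_of_nonneg_left (by linarith) (by positivity)
      · positivity
      · positivity
    have h4 : (N : ℝ) ^ 2 / T ≤ (M * L) * (9 * N) := by
      refine (hGc.trans (h2.trans h3)).trans (le_of_eq ?_)
      ring
    rw [div_le_iff₀ hT0] at h4
    rw [div_le_iff₀ (by positivity)]
    have h5 : (N : ℝ) * N ≤ (M * L * (9 * T)) * N := by
      refine le_trans (le_of_eq ?_) (h4.trans (le_of_eq ?_)) <;> ring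
    exact le_of_mul_le_mul_right h5 (by linarith)
  have hMT : T ^ B ≤ (M : ℝ) := by
    refine le_trans ?_ hTM
    exact pow_le_pow_right₀ hT1 (by omega)
  have hW := partA (fun M S A a1 a2 a3 a4 => hQUAD M S A a1 a2 a3 a4) T N M L S G hT0 hM1 hL1 hS1 hSM hMLN hGc
    (fun g hg => ⟨(hG g hg).1, (hG g hg).2.1, (hG g hg).2.2.1, (hG g hg).2.2.2.2.1⟩)
  have hY := YG_card G N M L S T hT hM1 hL1 hS1 hMLN
    (fun g hg => ⟨(hG g hg).1, (hG g hg).2.1, (hG g hg).2.2.1, (hG g hg).2.2.2.1⟩) hW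
  have hZ := YG_ne G N M L S (1 / T ^ 28) hL1 hN1 hS1 (hSM.trans hML)
  set Z := (YG G N M L S (1 / T ^ 28)).filter (fun y => y.1 ≠ 0 ∧ y.2.2 ≠ 0) with hZd
  have hzc := num1 T N M L S _ _ B hT (by linarith) (by linarith) (by linarith) (by linarith) hMLNr hbig hST2 hY hZ
  have hZ1 : ∀ z ∈ Z, |z.2.1| ≤ (N : ℤ) ∧ z.1 ≠ 0 ∧ z.2.2 ≠ 0 ∧ |z.2.2 * z.1| ≤ (N : ℤ) := by
    intro z hz
    rw [hZd, mem_filter, YG, mem_filter, mem_product, mem_product] at hz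
    obtain ⟨⟨⟨h1, h2, h3⟩, -⟩, h4, h5⟩ := hz
    refine ⟨abs_le.2 (mem_Icc.1 h2), h4, h5, ?_⟩
    rw [abs_mul]
    have h6 : |z.2.2| ≤ (S : ℤ) := abs_le.2 (mem_Icc.1 h3)
    have h7 : |z.1| ≤ (L : ℤ) := abs_le.2 (mem_Icc.1 h1)
    have h8 : (S : ℤ) ≤ M := by exact_mod_cast hSM
    have h9 : (M : ℤ) * L ≤ N := by exact_mod_cast hMLN
    calc |z.2.2| * |z.1| ≤ (M : ℤ) * L := mul_le_mul (h6.trans h8) h7 (abs_nonneg _) (by positivity)
      _ ≤ N := h9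
  have hP := pairs_card Z N hN1 hZ1
  refine ⟨Z.image (fun z => (z.2.1, z.2.1 + z.2.2 * z.1)), ?_, ?_⟩
  · have h1 := num2 T N _ _ (Real.log N) B hT (by linarith) (by positivity) (Real.log_nonneg hNr) hlog hzc hP
    refine le_trans ?_ h1
    apply div_le_div_of_nonneg_left (by positivity) (by positivity)
    exact pow_le_pow_right₀ hT1 (by omega)
  · intro p hp
    rw [mem_image] at hp
    obtain ⟨z, hz, rfl⟩ := hp
    have hzY : z ∈ YG G N M L S (1 / T ^ 28) := (mem_filter.1 hz).1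
    obtain ⟨h1, h2⟩ := YG_mem (by positivity) hM1 hS1 hzY
    refine ⟨h1, h2, ?_⟩
    obtain ⟨q, h3, h4, h5⟩ := partC hREC CR hR' T N M L S θ α G hT hM1 hML hS1 hSM hN1 hMT hST hST2 hbig hLMN
      (fun g hg => (hG g hg).2.2.2.2.2) z hzY
    refine ⟨q, h3, h4.trans (pow_le_pow_right₀ hT1 (by omega)), h5.trans ?_⟩
    apply div_le_div_of_nonneg_right _ (by linarith)
    exact pow_le_pow_right₀ hT1 (by omega)

end Pool.Agent.E8helper23.GB
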