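import Mathlib

/-!
Project GB, piece CORE: counting of the quadruples (part A) and of the good triples (part B).
-/

set_option autoImplicit false

namespace Pool.Agent.E8helper23.GB

open Finset

lemma card_sym (n : ℕ) : (Icc (-(n : ℤ)) n).card = 2 * n + 1 := by
  rw [Int.card_Icc]; omega

/-- the tuples `((k, m, h), (s₁, s₂))` -/
noncomputable def WW (G : Finset (ℤ × ℤ × ℤ)) (S : ℕ) : Finset ((ℤ × ℤ × ℤ) × (ℤ × ℤ)) :=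
  (G ×ˢ (Icc (-(S : ℤ)) S ×ˢ Icc (-(S : ℤ)) S)).filter (fun x =>
    (x.1.1, x.1.2.1 - x.2.1, x.1.2.2 + x.2.1 * x.1.1) ∈ G ∧
    (x.1.1, x.1.2.1 - x.2.2, x.1.2.2 + x.2.2 * x.1.1) ∈ G ∧
    (x.1.1, x.1.2.1 - x.2.1 - x.2.2, x.1.2.2 + (x.2.1 + x.2.2) * x.1.1) ∈ G)

/-- the fibre over `(k, u)` -/
noncomputable def AA (G : Finset (ℤ × ℤ × ℤ)) (M : ℕ) (x : ℤ × ℤ) : Finset ℤ :=
  (Ioc (M : ℤ) (2 * M)).filter (fun m => (x.1, m, x.2 - m * x.1) ∈ G)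

noncomputable def quad (S : ℕ) (A : Finset ℤ) : Finset (ℤ × ℤ × ℤ) :=
  (A ×ˢ (Icc (-(S : ℤ)) S ×ˢ Icc (-(S : ℤ)) S)).filter (fun x => x.1 - x.2.1 ∈ A ∧ x.1 - x.2.2 ∈ A ∧
      x.1 - x.2.1 - x.2.2 ∈ A)

lemma card_G_le (G : Finset (ℤ × ℤ × ℤ)) (N M L : ℕ)
    (hG : ∀ g ∈ G, |g.1| ≤ (L : ℤ) ∧ (M : ℤ) < g.2.1 ∧ g.2.1 ≤ 2 * M ∧ |g.2.2 + g.2.1 * g.1| ≤ (N : ℤ)) :
    G.card ≤ ∑ x ∈ Icc (-(L : ℤ)) L ×ˢ Icc (-(N : ℤ)) N, (AA G M x).card := by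
  classical
  have h1 : ∀ g ∈ G, (g.1, g.2.2 + g.2.1 * g.1) ∈ Icc (-(L : ℤ)) L ×ˢ Icc (-(N : ℤ)) N := by
    intro g hg
    obtain ⟨h2, h3, h4, h5⟩ := hG g hg
    rw [mem_product, mem_Icc, mem_Icc]
    exact ⟨abs_le.1 h2, abs_le.1 h5⟩
  rw [card_eq_sum_card_fiberwise h1]
  apply sum_le_sum
  intro x hx
  apply card_le_card_of_injOn (fun g => g.2.1)
  · intro g hg
    rw [mem_coe, mem_filter] at hg
    obtain ⟨h6, h7⟩ := hg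
    obtain ⟨h2, h3, h4, h5⟩ := hG g h6
    rw [mem_coe, AA, mem_filter, mem_Ioc]
    refine ⟨⟨h3, h4⟩, ?_⟩
    rw [← h7]
    have : (g.1, g.2.1, g.2.2 + g.2.1 * g.1 - g.2.1 * g.1) = g := by
      rw [add_sub_cancel_right]
    rw [this]
    exact h6
  · intro g hg g' hg' h
    rw [mem_coe, mem_filter] at hg hg'
    simp only at h
    have h1 := hg.2.trans hg'.2.symm
    rw [Prod.mk.injEq] at h1
    obtain ⟨h2, h3⟩ := h1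
    rw [h2, h] at h3
    have h4 : g.2.2 = g'.2.2 := by linarith
    exact Prod.ext h2 (Prod.ext h h4)

lemma quad_le (G : Finset (ℤ × ℤ × ℤ)) (N M L S : ℕ) :
    ∑ x ∈ Icc (-(L : ℤ)) L ×ˢ Icc (-(N : ℤ)) N, (quad S (AA G M x)).card ≤ (WW G S).card := by
  classical
  rw [← card_sigma]
  apply card_le_card_of_injOn
    (fun y => ((y.1.1, y.2.1, y.1.2 - y.2.1 * y.1.1), (y.2.2.1, y.2.2.2)))
  · intro y hy
    rw [mem_coe, mem_sigma] at hy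
    have hy2 := hy.2
    rw [quad, mem_filter, mem_product, mem_product] at hy2
    obtain ⟨⟨h1, h2, h3⟩, h4, h5, h6⟩ := hy2
    rw [AA, mem_filter] at h1 h4 h5 h6
    rw [mem_coe, WW, mem_filter, mem_product, mem_product]
    refine ⟨⟨h1.2, h2, h3⟩, ?_, ?_, ?_⟩
    · have := h4.2
      convert this using 3
      simp only
      ring
    · have := h5.2
      convert this using 3
      simp only
      ring
    · have := h6.2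
      convert this using 3
      simp only
      ring
  · rintro ⟨⟨k, u⟩, m, s, t⟩ hy ⟨⟨k', u'⟩, m', s', t'⟩ hy' h
    simp only [Prod.mk.injEq] at h
    obtain ⟨⟨h1, h2, h3⟩, h4, h5⟩ := h
    subst h1 h2 h4 h5
    have : u = u' := by linarith
    subst this
    rfl

lemma pow_mean {ι : Type*} (s : Finset ι) (f : ι → ℝ) (hs : (0 : ℝ) < s.card) :
    (∑ i ∈ s, f i) ^ 4 / (s.card : ℝ) ^ 3 ≤ ∑ i ∈ s, f i ^ 4 := by
  have h1 := sq_sum_le_card_mul_sum_sq (s := s) (f := f)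
  have h2 := sq_sum_le_card_mul_sum_sq (s := s) (f := fun i => f i ^ 2)
  have h3 : ∑ i ∈ s, (f i ^ 2) ^ 2 = ∑ i ∈ s, f i ^ 4 := by
    apply sum_congr rfl
    intro i _
    ring
  rw [h3] at h2
  rw [div_le_iff₀ (by positivity)]
  have h4 : (∑ i ∈ s, f i) ^ 4 ≤ (s.card * ∑ i ∈ s, f i ^ 2) ^ 2 := by
    calc (∑ i ∈ s, f i) ^ 4 = ((∑ i ∈ s, f i) ^ 2) ^ 2 := by ring
      _ ≤ _ := pow_le_pow_left₀ (sq_nonneg _) h1 2
  calc (∑ i ∈ s, f i) ^ 4 ≤ (s.card * ∑ i ∈ s, f i ^ 2) ^ 2 := h4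
    _ = (s.card : ℝ) ^ 2 * (∑ i ∈ s, f i ^ 2) ^ 2 := by ring
    _ ≤ (s.card : ℝ) ^ 2 * (s.card * ∑ i ∈ s, f i ^ 4) := mul_le_mul_of_nonneg_left h2 (by positivity)
    _ = _ := by ring

lemma ident (n t l m s : ℝ) (hn : 0 < n) (ht : 0 < t) (hl : 0 < l) (hm : 0 < m) :
    (n ^ 2 / t) ^ 4 / (9 * l * n) ^ 3 * (s ^ 2 / (64 * m ^ 3)) =
      n ^ 5 * s ^ 2 / (46656 * t ^ 4 * (m * l) ^ 3) := by
  rw [div_pow, div_div, div_mul_div_comm, div_eq_div_iff (by positivity) (by positivity)]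
  ring

lemma final_ineq (n t l m s k w a q : ℝ) (hn : 0 < n) (ht : 0 < t) (hl : 0 < l) (hm : 0 < m) (hml : m * l ≤ n)
    (hk0 : 0 < k) (hk : k ≤ 9 * l * n) (h1 : n ^ 2 / t ≤ a) (h2 : a ^ 4 / k ^ 3 ≤ q)
    (h3 : q * (s ^ 2 / (64 * m ^ 3)) ≤ w) : n ^ 2 * s ^ 2 / (46656 * t ^ 4) ≤ w := by
  have h6 : (n ^ 2 / t) ^ 4 ≤ a ^ 4 := pow_le_pow_left₀ (by positivity) h1 4
  have h7 : k ^ 3 ≤ (9 * l * n) ^ 3 := pow_le_pow_left₀ hk0.le hk 3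
  have h8 : (n ^ 2 / t) ^ 4 / (9 * l * n) ^ 3 ≤ a ^ 4 / k ^ 3 :=
    div_le_div₀ (by positivity) h6 (by positivity) h7
  have h9 : (n ^ 2 / t) ^ 4 / (9 * l * n) ^ 3 * (s ^ 2 / (64 * m ^ 3)) ≤ w :=
    (mul_le_mul_of_nonneg_right (h8.trans h2) (by positivity)).trans h3
  refine le_trans ?_ h9
  rw [ident n t l m s hn ht hl hm]
  have h10 : (m * l) ^ 3 ≤ n ^ 3 := pow_le_pow_left₀ (by positivity) hml 3
  rw [div_le_div_iff₀ (by positivity) (by positivity)]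
  calc n ^ 2 * s ^ 2 * (46656 * t ^ 4 * (m * l) ^ 3)
      = n ^ 2 * s ^ 2 * (46656 * t ^ 4) * (m * l) ^ 3 := by ring
    _ ≤ n ^ 2 * s ^ 2 * (46656 * t ^ 4) * n ^ 3 := mul_le_mul_of_nonneg_left h10 (by positivity)
    _ = n ^ 5 * s ^ 2 * (46656 * t ^ 4) := by ring

/-- part A -/
theorem partA (hQ : ∀ (M S : ℕ) (A : Finset ℤ), 1 ≤ M → 1 ≤ S → S ≤ M → A ⊆ Ioc (M : ℤ) (2 * M) →
      (A.card : ℝ) ^ 4 * S ^ 2 / (64 * M ^ 3) ≤ ((quad S A).card : ℝ))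
    (T : ℝ) (N M L S : ℕ) (G : Finset (ℤ × ℤ × ℤ)) (hT : 0 < T) (hM : 1 ≤ M) (hL : 1 ≤ L) (hS : 1 ≤ S)
    (hSM : S ≤ M) (hN : M * L ≤ N) (hc : (N : ℝ) ^ 2 / T ≤ G.card)
    (hG : ∀ g ∈ G, |g.1| ≤ (L : ℤ) ∧ (M : ℤ) < g.2.1 ∧ g.2.1 ≤ 2 * M ∧ |g.2.2 + g.2.1 * g.1| ≤ (N : ℤ)) :
    (N : ℝ) ^ 2 * (S : ℝ) ^ 2 / (46656 * T ^ 4) ≤ ((WW G S).card : ℝ) := by
  classical
  have hN1 : 1 ≤ N := le_trans (Nat.mul_le_mul hM hL) hN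
  have hMr : (1 : ℝ) ≤ M := by exact_mod_cast hM
  have hLr : (1 : ℝ) ≤ L := by exact_mod_cast hL
  have hNr : (1 : ℝ) ≤ N := by exact_mod_cast hN1
  have hMLr : (M : ℝ) * L ≤ N := by exact_mod_cast hN
  have hKc : ((Icc (-(L : ℤ)) L ×ˢ Icc (-(N : ℤ)) N).card : ℝ) ≤ 9 * L * N := by
    rw [card_product, card_sym, card_sym]
    push_cast
    nlinarith [mul_nonneg (sub_nonneg.2 hLr) (sub_nonneg.2 hNr)]
  have hK0 : (0 : ℝ) < (Icc (-(L : ℤ)) L ×ˢ Icc (-(N : ℤ)) N).card := by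
    rw [card_product, card_sym, card_sym]
    positivity
  have h1 : (N : ℝ) ^ 2 / T ≤ ∑ x ∈ Icc (-(L : ℤ)) L ×ˢ Icc (-(N : ℤ)) N, ((AA G M x).card : ℝ) := by
    refine hc.trans ?_
    exact_mod_cast card_G_le G N M L hG
  have h2 : ∑ x ∈ Icc (-(L : ℤ)) L ×ˢ Icc (-(N : ℤ)) N, ((quad S (AA G M x)).card : ℝ) ≤ (WW G S).card := by
    exact_mod_cast quad_le G N M L S
  have h3 : ∑ x ∈ Icc (-(L : ℤ)) L ×ˢ Icc (-(N : ℤ)) N,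
      ((AA G M x).card : ℝ) ^ 4 * ((S : ℝ) ^ 2 / (64 * (M : ℝ) ^ 3)) ≤
      ∑ x ∈ Icc (-(L : ℤ)) L ×ˢ Icc (-(N : ℤ)) N, ((quad S (AA G M x)).card : ℝ) := by
    apply sum_le_sum
    intro x hx
    have := hQ M S (AA G M x) hM hS hSM (filter_subset _ _)
    rw [mul_div_assoc] at this
    exact this
  rw [← sum_mul] at h3
  exact final_ineq N T L M S _ _ _ _ (by linarith) hT (by linarith) (by linarith) hMLr hK0 hKc h1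
    (pow_mean _ (fun x => ((AA G M x).card : ℝ)) hK0) (h3.trans h2)

end Pool.Agent.E8helper23.GB
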