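import Pool.Agent.E8helper23.GB.CoreA

/-!
Project GB, piece CORE: the good triples (part B).
-/

set_option autoImplicit false

namespace Pool.Agent.E8helper23.GB

open Finset

lemma good_count {ι κ : Type*} (Y : Finset ι) (I : Finset κ) (f : ι → κ → ℝ) (m δ s w : ℝ)
    (hf : ∀ y ∈ Y, ∀ i ∈ I, f y i ≤ m) (hm : 0 ≤ m) (hδ : 0 ≤ δ) (hs : 0 ≤ s)
    (hw : w ≤ ∑ y ∈ Y, ∑ i ∈ I, f y i) :
    w - Y.card * (I.card * (δ * m) + δ * s * m) ≤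
      ((Y.filter (fun y => δ * s ≤ ((I.filter (fun i => δ * m ≤ f y i)).card : ℝ))).card : ℝ) * (I.card * m) := by
  classical
  have h1 : ∀ y ∈ Y, ∑ i ∈ I, f y i ≤ I.card * (δ * m) + ((I.filter (fun i => δ * m ≤ f y i)).card : ℝ) * m := by
    intro y hy
    rw [← sum_filter_add_sum_filter_not I (fun i => δ * m ≤ f y i)]
    have h2 : ∑ i ∈ I.filter (fun i => δ * m ≤ f y i), f y i ≤
        ((I.filter (fun i => δ * m ≤ f y i)).card : ℝ) * m := by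
      rw [← nsmul_eq_mul]
      exact sum_le_card_nsmul _ _ _ (fun i hi => hf y hy i (mem_filter.1 hi).1)
    have h3 : ∑ i ∈ I.filter (fun i => ¬ δ * m ≤ f y i), f y i ≤ (I.card : ℝ) * (δ * m) := by
      calc ∑ i ∈ I.filter (fun i => ¬ δ * m ≤ f y i), f y i
          ≤ ((I.filter (fun i => ¬ δ * m ≤ f y i)).card : ℝ) * (δ * m) := by
            rw [← nsmul_eq_mul]
            exact sum_le_card_nsmul _ _ _ (fun i hi => (not_le.1 (mem_filter.1 hi).2).le)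
        _ ≤ _ := by
            apply mul_le_mul_of_nonneg_right _ (by positivity)
            exact_mod_cast card_filter_le _ _
    linarith
  have h4 : ∀ y ∈ Y, ∑ i ∈ I, f y i ≤ (I.card * (δ * m) + δ * s * m) +
      (if δ * s ≤ ((I.filter (fun i => δ * m ≤ f y i)).card : ℝ) then (I.card : ℝ) * m else 0) := by
    intro y hy
    refine (h1 y hy).trans ?_
    split_ifs with h
    · have h5 : ((I.filter (fun i => δ * m ≤ f y i)).card : ℝ) ≤ I.card := by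
        exact_mod_cast card_filter_le _ _
      have h6 := mul_le_mul_of_nonneg_right h5 hm
      have : 0 ≤ δ * s * m := by positivity
      linarith
    · have h6 := mul_le_mul_of_nonneg_right (not_le.1 h).le hm
      linarith
  have h7 := hw.trans (sum_le_sum h4)
  rw [sum_add_distrib, sum_const, ← sum_filter, sum_const, nsmul_eq_mul, nsmul_eq_mul] at h7
  linarith

/-- admissible `m` -/
noncomputable def Am (G : Finset (ℤ × ℤ × ℤ)) (M S : ℕ) (y : ℤ × ℤ × ℤ) (s : ℤ) : Finset ℤ :=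
  (Ioc (M : ℤ) (2 * M)).filter (fun m => ((y.1, m, y.2.1), (y.2.2, s)) ∈ WW G S)

/-- good `s₂` -/
noncomputable def Gs (G : Finset (ℤ × ℤ × ℤ)) (M S : ℕ) (δ : ℝ) (y : ℤ × ℤ × ℤ) : Finset ℤ :=
  (Icc (-(S : ℤ)) S).filter (fun s => δ * M ≤ ((Am G M S y s).card : ℝ))

/-- good triples `(k, h, s₁)` -/
noncomputable def YG (G : Finset (ℤ × ℤ × ℤ)) (N M L S : ℕ) (δ : ℝ) : Finset (ℤ × ℤ × ℤ) :=
  (Icc (-(L : ℤ)) L ×ˢ (Icc (-(N : ℤ)) N ×ˢ Icc (-(S : ℤ)) S)).filter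
    (fun y => δ * S ≤ ((Gs G M S δ y).card : ℝ))

lemma WW_le (G : Finset (ℤ × ℤ × ℤ)) (N M L S : ℕ)
    (hG : ∀ g ∈ G, |g.1| ≤ (L : ℤ) ∧ (M : ℤ) < g.2.1 ∧ g.2.1 ≤ 2 * M ∧ |g.2.2| ≤ (N : ℤ)) :
    (WW G S).card ≤ ∑ y ∈ Icc (-(L : ℤ)) L ×ˢ (Icc (-(N : ℤ)) N ×ˢ Icc (-(S : ℤ)) S),
      ∑ s ∈ Icc (-(S : ℤ)) S, (Am G M S y s).card := by
  classical
  rw [← sum_product']
  have h1 : ∀ x ∈ WW G S, ((x.1.1, x.1.2.2, x.2.1), x.2.2) ∈
      (Icc (-(L : ℤ)) L ×ˢ (Icc (-(N : ℤ)) N ×ˢ Icc (-(S : ℤ)) S)) ×ˢ Icc (-(S : ℤ)) S := by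
    intro x hx
    rw [WW, mem_filter, mem_product, mem_product] at hx
    obtain ⟨⟨h1, h2, h3⟩, -⟩ := hx
    obtain ⟨h4, h5, h6, h7⟩ := hG _ h1
    rw [mem_product, mem_product, mem_product]
    exact ⟨⟨mem_Icc.2 (abs_le.1 h4), mem_Icc.2 (abs_le.1 h7), h2⟩, h3⟩
  rw [card_eq_sum_card_fiberwise h1]
  apply sum_le_sum
  intro z hz
  apply card_le_card_of_injOn (fun x => x.1.2.1)
  · intro x hx
    rw [mem_coe, mem_filter] at hx
    obtain ⟨h2, h3⟩ := hx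
    have h4 := h2
    rw [WW, mem_filter, mem_product] at h4
    obtain ⟨h5, h6, h7, h8⟩ := hG _ h4.1.1
    rw [mem_coe, Am, mem_filter, mem_Ioc]
    refine ⟨⟨h6, h7⟩, ?_⟩
    rw [← h3]
    exact h2
  · intro x hx x' hx' h
    rw [mem_coe, mem_filter] at hx hx'
    have h1 := hx.2.trans hx'.2.symm
    obtain ⟨⟨k, m, h0⟩, s, t⟩ := x
    obtain ⟨⟨k', m', h0'⟩, s', t'⟩ := x'
    simp only [Prod.mk.injEq] at h1 h
    obtain ⟨⟨h2, h3, h4⟩, h5⟩ := h1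
    subst h2 h3 h4 h5 h
    rfl

lemma YG_card (G : Finset (ℤ × ℤ × ℤ)) (N M L S : ℕ) (T : ℝ) (hT : 2 ≤ T) (hM : 1 ≤ M) (hL : 1 ≤ L)
    (hS : 1 ≤ S) (hN : M * L ≤ N)
    (hG : ∀ g ∈ G, |g.1| ≤ (L : ℤ) ∧ (M : ℤ) < g.2.1 ∧ g.2.1 ≤ 2 * M ∧ |g.2.2| ≤ (N : ℤ))
    (hW : (N : ℝ) ^ 2 * (S : ℝ) ^ 2 / (46656 * T ^ 4) ≤ ((WW G S).card : ℝ)) :
    (N : ℝ) ^ 2 * S / (279936 * T ^ 4 * M) ≤ ((YG G N M L S (1 / T ^ 28)).card : ℝ) := by
  classical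
  have hN1 : 1 ≤ N := le_trans (Nat.mul_le_mul hM hL) hN
  have hMr : (1 : ℝ) ≤ M := by exact_mod_cast hM
  have hLr : (1 : ℝ) ≤ L := by exact_mod_cast hL
  have hNr : (1 : ℝ) ≤ N := by exact_mod_cast hN1
  have hSr : (1 : ℝ) ≤ S := by exact_mod_cast hS
  have hMLr : (M : ℝ) * L ≤ N := by exact_mod_cast hN
  have hT0 : 0 < T := by linarith
  have hδ : (0 : ℝ) ≤ 1 / T ^ 28 := by positivity
  have h1 : ((WW G S).card : ℝ) ≤ ∑ y ∈ Icc (-(L : ℤ)) L ×ˢ (Icc (-(N : ℤ)) N ×ˢ Icc (-(S : ℤ)) S),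
      ∑ s ∈ Icc (-(S : ℤ)) S, ((Am G M S y s).card : ℝ) := by
    exact_mod_cast WW_le G N M L S hG
  have h2 := good_count (Icc (-(L : ℤ)) L ×ˢ (Icc (-(N : ℤ)) N ×ˢ Icc (-(S : ℤ)) S)) (Icc (-(S : ℤ)) S)
    (fun y s => ((Am G M S y s).card : ℝ)) M (1 / T ^ 28) S _ (by
      intro y hy s hs
      have : (Am G M S y s).card ≤ (Ioc (M : ℤ) (2 * M)).card := card_filter_le _ _
      rw [Int.card_Ioc] at this
      have h3 : (Am G M S y s).card ≤ M := by omega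
      exact_mod_cast h3) (by linarith) hδ (by linarith) (hW.trans h1)
  have h3 : ((Icc (-(L : ℤ)) L ×ˢ (Icc (-(N : ℤ)) N ×ˢ Icc (-(S : ℤ)) S)).card : ℝ) ≤ 27 * L * N * S := by
    rw [card_product, card_product, card_sym, card_sym, card_sym]
    push_cast
    have e1 : (2 * (N : ℝ) + 1) * (2 * S + 1) ≤ (3 * N) * (3 * S) := by
      apply mul_le_mul <;> first | linarith | positivity
    calc (2 * (L : ℝ) + 1) * ((2 * N + 1) * (2 * S + 1)) ≤ (3 * L) * ((3 * N) * (3 * S)) := by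
          apply mul_le_mul _ e1 (by positivity) (by positivity)
          linarith
      _ = _ := by ring
  have h4 : ((Icc (-(S : ℤ)) S).card : ℝ) ≤ 3 * S := by
    rw [card_sym]
    push_cast
    linarith
  rw [YG]
  have e0 : (filter (fun y => 1 / T ^ 28 * (S : ℝ) ≤ ((Gs G M S (1 / T ^ 28) y).card : ℝ))
      (Icc (-(L : ℤ)) L ×ˢ (Icc (-(N : ℤ)) N ×ˢ Icc (-(S : ℤ)) S))) =
      (filter (fun y => 1 / T ^ 28 * (S : ℝ) ≤
        ((filter (fun i => 1 / T ^ 28 * (M : ℝ) ≤ ((Am G M S y i).card : ℝ)) (Icc (-(S : ℤ)) S)).card : ℝ))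
        (Icc (-(L : ℤ)) L ×ˢ (Icc (-(N : ℤ)) N ×ˢ Icc (-(S : ℤ)) S))) := by
    rfl
  rw [e0]
  set Yc := ((filter (fun y => 1 / T ^ 28 * (S : ℝ) ≤
        ((filter (fun i => 1 / T ^ 28 * (M : ℝ) ≤ ((Am G M S y i).card : ℝ)) (Icc (-(S : ℤ)) S)).card : ℝ))
        (Icc (-(L : ℤ)) L ×ˢ (Icc (-(N : ℤ)) N ×ˢ Icc (-(S : ℤ)) S))).card : ℝ) with hYc
  have hYc0 : 0 ≤ Yc := by rw [hYc]; positivity
  set y0 := ((Icc (-(L : ℤ)) L ×ˢ (Icc (-(N : ℤ)) N ×ˢ Icc (-(S : ℤ)) S)).card : ℝ) with hy0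
  set i0 := ((Icc (-(S : ℤ)) S).card : ℝ) with hi0
  have hM0 : (0 : ℝ) < M := by linarith
  have hS0 : (0 : ℝ) < S := by linarith
  have h5 : y0 * (i0 * (1 / T ^ 28 * M) + 1 / T ^ 28 * S * M) ≤ 108 * (N : ℝ) ^ 2 * S ^ 2 * (1 / T ^ 28) := by
    have e1 : i0 * (1 / T ^ 28 * M) + 1 / T ^ 28 * S * M ≤ 4 * S * M * (1 / T ^ 28) := by
      have := mul_le_mul_of_nonneg_right h4 (show (0 : ℝ) ≤ 1 / T ^ 28 * M by positivity)
      linarith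
    calc y0 * (i0 * (1 / T ^ 28 * M) + 1 / T ^ 28 * S * M) ≤ (27 * L * N * S) * (4 * S * M * (1 / T ^ 28)) := by
          apply mul_le_mul h3 e1 (by positivity) (by positivity)
      _ = 108 * N * S ^ 2 * (1 / T ^ 28) * (M * L) := by ring
      _ ≤ 108 * N * S ^ 2 * (1 / T ^ 28) * N := mul_le_mul_of_nonneg_left hMLr (by positivity)
      _ = _ := by ring
  have h6 : (108 : ℝ) * (1 / T ^ 28) ≤ 1 / (93312 * T ^ 4) := by
    rw [mul_one_div, div_le_div_iff₀ (by positivity) (by positivity)]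
    have e2 : (2 : ℝ) ^ 24 ≤ T ^ 24 := pow_le_pow_left₀ (by norm_num) hT 24
    have e3 : (108 : ℝ) * 93312 ≤ T ^ 24 := le_trans (by norm_num) e2
    calc 108 * (93312 * T ^ 4) = (108 * 93312) * T ^ 4 := by ring
      _ ≤ T ^ 24 * T ^ 4 := mul_le_mul_of_nonneg_right e3 (by positivity)
      _ = 1 * T ^ 28 := by ring
  have h7 : 108 * (N : ℝ) ^ 2 * S ^ 2 * (1 / T ^ 28) ≤ (N : ℝ) ^ 2 * S ^ 2 / (93312 * T ^ 4) := by
    calc 108 * (N : ℝ) ^ 2 * S ^ 2 * (1 / T ^ 28) = (N : ℝ) ^ 2 * S ^ 2 * (108 * (1 / T ^ 28)) := by ring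
      _ ≤ (N : ℝ) ^ 2 * S ^ 2 * (1 / (93312 * T ^ 4)) := mul_le_mul_of_nonneg_left h6 (by positivity)
      _ = _ := by ring
  have h8 : Yc * (i0 * M) ≤ Yc * (3 * S * M) :=
    mul_le_mul_of_nonneg_left (mul_le_mul_of_nonneg_right h4 hM0.le) hYc0
  have h9 : (N : ℝ) ^ 2 * S ^ 2 / (46656 * T ^ 4) = 2 * ((N : ℝ) ^ 2 * S ^ 2 / (93312 * T ^ 4)) := by
    rw [mul_div_assoc', div_eq_div_iff (by positivity) (by positivity)]
    ring
  have h10 : (N : ℝ) ^ 2 * S ^ 2 / (93312 * T ^ 4) ≤ Yc * (3 * S * M) := by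
    rw [h9] at h2
    linarith
  have h11 : (N : ℝ) ^ 2 * S / (279936 * T ^ 4 * M) * (3 * S * M) = (N : ℝ) ^ 2 * S ^ 2 / (93312 * T ^ 4) := by
    rw [div_mul_eq_mul_div, div_eq_div_iff (by positivity) (by positivity)]
    ring
  have h12 : (0 : ℝ) < 3 * S * M := by positivity
  rw [← h11] at h10
  exact le_of_mul_le_mul_right h10 h12

/-- the triples with `k = 0` or `s₁ = 0` are negligible -/
lemma YG_ne (G : Finset (ℤ × ℤ × ℤ)) (N M L S : ℕ) (δ : ℝ) (hL : 1 ≤ L) (hN : 1 ≤ N) (hS : 1 ≤ S) (hSL : S ≤ L) :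
    ((YG G N M L S δ).card : ℝ) - 18 * L * N ≤
      (((YG G N M L S δ).filter (fun y => y.1 ≠ 0 ∧ y.2.2 ≠ 0)).card : ℝ) := by
  classical
  have hLr : (1 : ℝ) ≤ L := by exact_mod_cast hL
  have hNr : (1 : ℝ) ≤ N := by exact_mod_cast hN
  have hSr : (1 : ℝ) ≤ S := by exact_mod_cast hS
  have hSLr : (S : ℝ) ≤ L := by exact_mod_cast hSL
  have h1 := card_filter_add_card_filter_not (s := YG G N M L S δ) (fun y => y.1 ≠ 0 ∧ y.2.2 ≠ 0)
  have h2 : ((YG G N M L S δ).filter (fun y => ¬ (y.1 ≠ 0 ∧ y.2.2 ≠ 0))).card ≤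
      (Icc (-(N : ℤ)) N ×ˢ Icc (-(S : ℤ)) S).card + (Icc (-(L : ℤ)) L ×ˢ Icc (-(N : ℤ)) N).card := by
    have h3 : (YG G N M L S δ).filter (fun y => ¬ (y.1 ≠ 0 ∧ y.2.2 ≠ 0)) ⊆
        (Icc (-(N : ℤ)) N ×ˢ Icc (-(S : ℤ)) S).image (fun x => ((0 : ℤ), x.1, x.2)) ∪
        (Icc (-(L : ℤ)) L ×ˢ Icc (-(N : ℤ)) N).image (fun x => (x.1, x.2, (0 : ℤ))) := by
      intro y hy
      rw [mem_filter, YG, mem_filter, mem_product, mem_product] at hy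
      obtain ⟨⟨⟨h4, h5, h6⟩, -⟩, h7⟩ := hy
      rw [mem_union, mem_image, mem_image]
      by_cases h8 : y.1 = 0
      · left
        refine ⟨(y.2.1, y.2.2), mem_product.2 ⟨h5, h6⟩, ?_⟩
        rw [← h8]
      · right
        have h9 : y.2.2 = 0 := by
          by_contra h10
          exact h7 ⟨h8, h10⟩
        refine ⟨(y.1, y.2.1), mem_product.2 ⟨h4, h5⟩, ?_⟩
        rw [← h9]
    refine (card_le_card h3).trans ((card_union_le _ _).trans ?_)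
    exact Nat.add_le_add card_image_le card_image_le
  have h3 : ((Icc (-(N : ℤ)) N ×ˢ Icc (-(S : ℤ)) S).card : ℝ) + (Icc (-(L : ℤ)) L ×ˢ Icc (-(N : ℤ)) N).card ≤
      18 * L * N := by
    rw [card_product, card_product, card_sym, card_sym, card_sym]
    push_cast
    have e1 : (2 * (N : ℝ) + 1) * (2 * S + 1) ≤ (3 * N) * (3 * L) := by
      apply mul_le_mul <;> first | linarith | positivity
    have e2 : (2 * (L : ℝ) + 1) * (2 * N + 1) ≤ (3 * L) * (3 * N) := by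
      apply mul_le_mul <;> first | linarith | positivity
    linarith
  have h4 : (((YG G N M L S δ).filter (fun y => ¬ (y.1 ≠ 0 ∧ y.2.2 ≠ 0))).card : ℝ) ≤ 18 * L * N := by
    refine le_trans ?_ h3
    exact_mod_cast h2
  have h5 : (((YG G N M L S δ).filter (fun y => y.1 ≠ 0 ∧ y.2.2 ≠ 0)).card : ℝ) +
      (((YG G N M L S δ).filter (fun y => ¬ (y.1 ≠ 0 ∧ y.2.2 ≠ 0))).card : ℝ) = ((YG G N M L S δ).card : ℝ) := by
    exact_mod_cast h1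
  linarith

end Pool.Agent.E8helper23.GB
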