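import Pool.Agent.E8helper66.GB.Stm
import Pool.Agent.E8helper23.GB.CoreB

/-!
Project GB, piece CORE: a good triple gives a good pair (part C).
-/

set_option autoImplicit false

namespace Pool.Agent.E8helper23.GB

open Finset
open Pool.Agent.E8helper66.GB (nn S_REC S_REL)

/-- the inner statement of `S_REL` -/
def RelC (C : ℕ) : Prop := ∀ (T ε : ℝ) (M S : ℕ) (s₁ s₂ : ℤ) (φ₁ φ₂ φ₁₂ α : ℝ) (A : Finset ℤ),
  2 ≤ T → A ⊆ Ioc (M : ℤ) (2 * M) → (M : ℝ) / T ≤ A.card → T ^ C ≤ M → 0 ≤ ε → |s₁| ≤ S → |s₂| ≤ S →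
  1 ≤ S → S ≤ M → T ^ C * (S * ε) ≤ 1 →
  (∀ m ∈ A, ∃ t : ℝ, nn (m * t - α) ≤ ε ∧ nn (((m : ℝ) - s₁) * (t - φ₁) - α) ≤ ε ∧
    nn (((m : ℝ) - s₂) * (t - φ₂) - α) ≤ ε ∧ nn (((m : ℝ) - s₁ - s₂) * (t - φ₁₂) - α) ≤ ε) →
  ∃ q : ℕ, 1 ≤ q ∧ (q : ℝ) ≤ T ^ C ∧ nn (q * (s₂ * φ₁)) ≤ T ^ C * ε

lemma mem_Am {G : Finset (ℤ × ℤ × ℤ)} {M S : ℕ} {k h s₁ s₂ m : ℤ} (hm : m ∈ Am G M S (k, h, s₁) s₂) :
    (k, m, h) ∈ G ∧ (k, m - s₁, h + s₁ * k) ∈ G ∧ (k, m - s₂, h + s₂ * k) ∈ G ∧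
      (k, m - s₁ - s₂, h + (s₁ + s₂) * k) ∈ G := by
  rw [Am, mem_filter] at hm
  have h1 := hm.2
  rw [WW, mem_filter, mem_product] at h1
  exact ⟨h1.1.1, h1.2.1, h1.2.2.1, h1.2.2.2⟩

lemma four_t (T : ℝ) (M L S : ℕ) (θ α : ℤ → ℝ) (G : Finset (ℤ × ℤ × ℤ))
    (hG : ∀ g ∈ G, nn (g.2.1 * (θ g.2.2 - θ (g.2.2 + g.2.1 * g.1)) - α g.1) ≤ T / L)
    (k h s₁ s₂ m : ℤ) (hm : m ∈ Am G M S (k, h, s₁) s₂) :
    ∃ t : ℝ, nn (m * t - α k) ≤ T / L ∧ nn (((m : ℝ) - s₁) * (t - (θ h - θ (h + s₁ * k))) - α k) ≤ T / L ∧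
    nn (((m : ℝ) - s₂) * (t - (θ h - θ (h + s₂ * k))) - α k) ≤ T / L ∧
    nn (((m : ℝ) - s₁ - s₂) * (t - (θ h - θ (h + (s₁ + s₂) * k))) - α k) ≤ T / L := by
  obtain ⟨hm2, hm3, hm4, hm5⟩ := mem_Am hm
  refine ⟨θ h - θ (h + m * k), ?_, ?_, ?_, ?_⟩
  · have := hG _ hm2
    simp only at this
    exact this
  · have := hG _ hm3
    simp only at this
    have e1 : h + s₁ * k + (m - s₁) * k = h + m * k := by ring
    rw [e1] at this
    have e2 : ((m : ℝ) - s₁) * (θ h - θ (h + m * k) - (θ h - θ (h + s₁ * k))) - α k =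
        ((m - s₁ : ℤ) : ℝ) * (θ (h + s₁ * k) - θ (h + m * k)) - α k := by
      push_cast
      ring
    rw [e2]
    exact this
  · have := hG _ hm4
    simp only at this
    have e1 : h + s₂ * k + (m - s₂) * k = h + m * k := by ring
    rw [e1] at this
    have e2 : ((m : ℝ) - s₂) * (θ h - θ (h + m * k) - (θ h - θ (h + s₂ * k))) - α k =
        ((m - s₂ : ℤ) : ℝ) * (θ (h + s₂ * k) - θ (h + m * k)) - α k := by
      push_cast
      ring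
    rw [e2]
    exact this
  · have := hG _ hm5
    simp only at this
    have e1 : h + (s₁ + s₂) * k + (m - s₁ - s₂) * k = h + m * k := by ring
    rw [e1] at this
    have e2 : ((m : ℝ) - s₁ - s₂) * (θ h - θ (h + m * k) - (θ h - θ (h + (s₁ + s₂) * k))) - α k =
        ((m - s₁ - s₂ : ℤ) : ℝ) * (θ (h + (s₁ + s₂) * k) - θ (h + m * k)) - α k := by
      push_cast
      ring
    rw [e2]
    exact this

/-- one value of `s₂` -/
lemma one_s (CR : ℕ) (hR : RelC CR) (T : ℝ) (M L S : ℕ) (θ α : ℤ → ℝ) (G : Finset (ℤ × ℤ × ℤ))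
    (hT : 2 ≤ T) (hM : 1 ≤ M) (hML : M ≤ L) (hS : 1 ≤ S) (hSM : S ≤ M)
    (hMT : T ^ (28 * CR) ≤ M) (hST : (S : ℝ) ≤ M / T ^ (28 * CR + 1))
    (hG : ∀ g ∈ G, nn (g.2.1 * (θ g.2.2 - θ (g.2.2 + g.2.1 * g.1)) - α g.1) ≤ T / L)
    (k h s₁ s₂ : ℤ) (h1 : |s₁| ≤ (S : ℤ)) (h2 : |s₂| ≤ (S : ℤ))
    (hA : 1 / T ^ 28 * M ≤ ((Am G M S (k, h, s₁) s₂).card : ℝ)) :
    ∃ q : ℕ, 1 ≤ q ∧ (q : ℝ) ≤ T ^ (28 * CR) ∧ nn (q * (s₂ * (θ h - θ (h + s₁ * k)))) ≤ T ^ (28 * CR + 1) / L := by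
  have hT0 : 0 < T := by linarith
  have hMr : (1 : ℝ) ≤ M := by exact_mod_cast hM
  have hMLr : (M : ℝ) ≤ L := by exact_mod_cast hML
  have hL0 : (0 : ℝ) < L := by linarith
  have hT28 : (2 : ℝ) ≤ T ^ 28 := by
    calc (2 : ℝ) ≤ T := hT
      _ = T ^ 1 := (pow_one T).symm
      _ ≤ T ^ 28 := pow_le_pow_right₀ (by linarith) (by norm_num)
  have h3 := hR (T ^ 28) (T / L) M S s₁ s₂ (θ h - θ (h + s₁ * k)) (θ h - θ (h + s₂ * k))
    (θ h - θ (h + (s₁ + s₂) * k)) (α k) (Am G M S (k, h, s₁) s₂) hT28 (filter_subset _ _)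
    (by rw [div_eq_mul_one_div, mul_comm]; exact hA) (by rw [← pow_mul]; exact hMT) (by positivity) h1 h2 hS hSM
    (by
      rw [← pow_mul]
      have e1 : (S : ℝ) * (T / L) ≤ (M / T ^ (28 * CR + 1)) * (T / L) :=
        mul_le_mul_of_nonneg_right hST (by positivity)
      calc T ^ (28 * CR) * ((S : ℝ) * (T / L)) ≤ T ^ (28 * CR) * ((M / T ^ (28 * CR + 1)) * (T / L)) :=
            mul_le_mul_of_nonneg_left e1 (by positivity)
        _ = M / L := by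
            rw [pow_succ]
            field_simp
        _ ≤ 1 := by rwa [div_le_one hL0])
    (fun m hm => four_t T M L S θ α G hG k h s₁ s₂ m hm)
  obtain ⟨q, h4, h5, h6⟩ := h3
  rw [← pow_mul] at h5 h6
  refine ⟨q, h4, h5, h6.trans (le_of_eq ?_)⟩
  rw [pow_succ]
  ring

lemma gen_e2 (a b c l : ℝ) (hl : l ≠ 0) (hb : b ≠ 0) (hc : c ≠ 0) :
    64 * (a / l) / (1 / b * c) = 64 * (a * b) / (l * c) := by
  field_simp

lemma pigeon {ι : Type*} (s : Finset ι) (X x : ℝ) (hX : 0 < X) (f : ι → ℕ)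
    (hf : ∀ i ∈ s, 1 ≤ f i ∧ (f i : ℝ) ≤ X) (hc : X * x ≤ s.card) (hx : 0 < x) :
    ∃ q : ℕ, 1 ≤ q ∧ (q : ℝ) ≤ X ∧ x ≤ ((s.filter (fun i => f i = q)).card : ℝ) := by
  classical
  by_contra hcon
  push Not at hcon
  have h1 : ∀ i ∈ s, f i ∈ Icc 1 ⌊X⌋₊ := by
    intro i hi
    rw [mem_Icc]
    exact ⟨(hf i hi).1, Nat.le_floor (hf i hi).2⟩
  have h2 := card_eq_sum_card_fiberwise h1
  have hs : s.Nonempty := by
    rw [← card_pos]
    have : (0 : ℝ) < s.card := lt_of_lt_of_le (by positivity) hc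
    exact_mod_cast this
  obtain ⟨i0, hi0⟩ := hs
  have hne : (Icc 1 ⌊X⌋₊).Nonempty := ⟨f i0, h1 i0 hi0⟩
  have h3 : (s.card : ℝ) < ∑ _q ∈ Icc 1 ⌊X⌋₊, x := by
    rw [h2]
    push_cast
    apply sum_lt_sum_of_nonempty hne
    intro q hq
    rw [mem_Icc] at hq
    apply hcon q hq.1
    exact (Nat.le_floor_iff hX.le).1 hq.2
  rw [sum_const, nsmul_eq_mul, Nat.card_Icc] at h3
  have h4 : ((⌊X⌋₊ + 1 - 1 : ℕ) : ℝ) ≤ X := by
    rw [Nat.add_sub_cancel]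
    exact Nat.floor_le hX.le
  have h5 := mul_le_mul_of_nonneg_right h4 hx.le
  linarith

/-- a good triple gives a good pair -/
theorem partC (hREC : S_REC) (CR : ℕ) (hR : RelC CR) (T : ℝ) (N M L S : ℕ) (θ α : ℤ → ℝ)
    (G : Finset (ℤ × ℤ × ℤ))
    (hT : 2 ≤ T) (hM : 1 ≤ M) (hML : M ≤ L) (hS : 1 ≤ S) (hSM : S ≤ M) (hN1 : 1 ≤ N)
    (hMT : T ^ (28 * CR) ≤ M) (hST : (S : ℝ) ≤ M / T ^ (28 * CR + 1))
    (hST2 : (M : ℝ) / (2 * T ^ (28 * CR + 1)) ≤ S)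
    (hbig : 64 * T ^ (2 * (28 * CR) + 60) ≤ S) (hLMN : (N : ℝ) / (9 * T) ≤ M * L)
    (hG : ∀ g ∈ G, nn (g.2.1 * (θ g.2.2 - θ (g.2.2 + g.2.1 * g.1)) - α g.1) ≤ T / L)
    (y : ℤ × ℤ × ℤ) (hy : y ∈ YG G N M L S (1 / T ^ 28)) :
    ∃ q : ℕ, 1 ≤ q ∧ (q : ℝ) ≤ T ^ (2 * (28 * CR) + 31) ∧
      nn (q * (θ y.2.1 - θ (y.2.1 + y.2.2 * y.1))) ≤ T ^ (4 * (28 * CR) + 73) / N := by
  classical
  obtain ⟨k, h, s₁⟩ := y
  set B := 28 * CR with hB
  have hT0 : 0 < T := by linarith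
  have hT1 : 1 ≤ T := by linarith
  have hMr : (1 : ℝ) ≤ M := by exact_mod_cast hM
  have hSr : (1 : ℝ) ≤ S := by exact_mod_cast hS
  have hNr : (1 : ℝ) ≤ N := by exact_mod_cast hN1
  have hMLr : (M : ℝ) ≤ L := by exact_mod_cast hML
  have hSMr : (S : ℝ) ≤ M := by exact_mod_cast hSM
  have hL0 : (0 : ℝ) < L := by linarith
  have hM0 : (0 : ℝ) < M := by linarith
  have hN0 : (0 : ℝ) < N := by linarith
  rw [YG, mem_filter, mem_product, mem_product] at hy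
  obtain ⟨⟨hk, hh, hs⟩, hg⟩ := hy
  simp only at hk hh hs hg ⊢
  rw [mem_Icc] at hk hh hs
  have h1 : ∀ s ∈ Gs G M S (1 / T ^ 28) (k, h, s₁), ∃ q : ℕ, 1 ≤ q ∧ (q : ℝ) ≤ T ^ B ∧
      nn (q * (s * (θ h - θ (h + s₁ * k)))) ≤ T ^ (B + 1) / L := by
    intro s hs'
    rw [Gs, mem_filter, mem_Icc] at hs'
    exact one_s CR hR T M L S θ α G hT hM hML hS hSM hMT hST hG k h s₁ s (abs_le.2 hs) (abs_le.2 hs'.1) hs'.2
  choose! f hf using h1
  obtain ⟨q, hq1, hq2, hq3⟩ := pigeon (Gs G M S (1 / T ^ 28) (k, h, s₁)) (T ^ B) (S / T ^ (B + 28)) (by positivity) f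
    (fun s hs' => ⟨(hf s hs').1, (hf s hs').2.1⟩) (by
      refine le_trans (le_of_eq ?_) hg
      rw [pow_add]
      field_simp) (by positivity)
  have hη : (0 : ℝ) < 1 / T ^ (B + 30) := by positivity
  have hη1 : 1 / T ^ (B + 30) ≤ 1 := by
    rw [div_le_one (by positivity)]
    exact one_le_pow₀ hT1
  have h2S : ((2 * S + 1 : ℕ) : ℝ) ≤ 3 * S := by push_cast; linarith
  have h4 : (4 : ℝ) ≤ T ^ 2 := by nlinarith
  obtain ⟨q', hq'1, hq'2, hq'3⟩ := hREC (q * (θ h - θ (h + s₁ * k))) 0 (T ^ (B + 1) / L) (1 / T ^ (B + 30)) (2 * S + 1)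
    (-(S : ℤ)) ((Gs G M S (1 / T ^ 28) (k, h, s₁)).filter (fun i => f i = q)) (by
      intro s hs'
      rw [mem_filter, Gs, mem_filter, mem_Icc] at hs'
      rw [mem_Ico]
      push_cast
      constructor <;> [exact hs'.1.1.1; linarith [hs'.1.1.2]]) hη hη1 (by
      refine le_trans ?_ hq3
      calc 1 / T ^ (B + 30) * ((2 * S + 1 : ℕ) : ℝ) ≤ 1 / T ^ (B + 30) * (3 * S) :=
            mul_le_mul_of_nonneg_left h2S hη.le
        _ ≤ 1 / T ^ (B + 30) * (T ^ 2 * S) := by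
            apply mul_le_mul_of_nonneg_left _ hη.le
            nlinarith
        _ = S / T ^ (B + 28) := by
            rw [show B + 30 = (B + 28) + 2 by ring, pow_add T (B + 28) 2]
            field_simp) (by positivity) (by
      rw [div_div, div_le_div_iff₀ hL0 (by positivity)]
      calc T ^ (B + 1) * (T ^ (B + 30) * 64) = 64 * T ^ (2 * B + 31) := by ring
        _ ≤ 64 * T ^ (2 * B + 60) := by
            apply mul_le_mul_of_nonneg_left _ (by norm_num)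
            exact pow_le_pow_right₀ hT1 (by omega)
        _ ≤ S := hbig
        _ ≤ 1 * L := by linarith) (by
      rw [one_div, inv_pow, div_inv_eq_mul, ← pow_mul]
      calc 64 * T ^ ((B + 30) * 2) = 64 * T ^ (2 * B + 60) := by ring
        _ ≤ S := hbig
        _ ≤ ((2 * S + 1 : ℕ) : ℝ) := by push_cast; linarith) (by
      intro m hm
      rw [mem_filter] at hm
      have := (hf m hm.1).2.2
      rw [hm.2] at this
      have e1 : (m : ℝ) * (q * (θ h - θ (h + s₁ * k))) + 0 = q * (m * (θ h - θ (h + s₁ * k))) := by ring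
      rw [e1]
      exact this)
  refine ⟨q' * q, Nat.mul_le_mul hq'1 hq1, ?_, ?_⟩
  · push_cast
    have e1 : (q' : ℝ) ≤ 2 * T ^ (B + 30) := by
      refine hq'2.trans (le_of_eq ?_)
      field_simp
    calc (q' : ℝ) * q ≤ (2 * T ^ (B + 30)) * T ^ B := mul_le_mul e1 hq2 (by positivity) (by positivity)
      _ ≤ (T * T ^ (B + 30)) * T ^ B := by
          apply mul_le_mul_of_nonneg_right _ (by positivity)
          exact mul_le_mul_of_nonneg_right hT (by positivity)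
      _ = T ^ (2 * B + 31) := by ring
  · have e1 : ((q' * q : ℕ) : ℝ) * (θ h - θ (h + s₁ * k)) = q' * (q * (θ h - θ (h + s₁ * k))) := by
      push_cast
      ring
    rw [e1]
    refine hq'3.trans ?_
    have e2 : 64 * (T ^ (B + 1) / L) / ((1 / T ^ (B + 30)) ^ 2 * ((2 * S + 1 : ℕ) : ℝ)) =
        64 * T ^ (3 * B + 61) / (L * ((2 * S + 1 : ℕ) : ℝ)) := by
      have e3 : ((2 * S + 1 : ℕ) : ℝ) ≠ 0 := by positivity
      rw [div_pow, one_pow, ← pow_mul, gen_e2 _ _ _ _ hL0.ne' (by positivity) e3]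
      congr 2
      rw [← pow_add]
      congr 1
      ring
    rw [e2]
    have e4 : (M : ℝ) / T ^ (B + 1) ≤ ((2 * S + 1 : ℕ) : ℝ) := by
      push_cast
      have : (M : ℝ) / T ^ (B + 1) = 2 * (M / (2 * T ^ (B + 1))) := by field_simp
      rw [this]
      linarith
    have e5 : (N : ℝ) / (9 * T) / T ^ (B + 1) ≤ L * ((2 * S + 1 : ℕ) : ℝ) := by
      calc (N : ℝ) / (9 * T) / T ^ (B + 1) ≤ (M * L) / T ^ (B + 1) := by gcongr
        _ = L * (M / T ^ (B + 1)) := by ring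
        _ ≤ _ := mul_le_mul_of_nonneg_left e4 hL0.le
    have e6 : (0 : ℝ) < (N : ℝ) / (9 * T) / T ^ (B + 1) := by positivity
    calc 64 * T ^ (3 * B + 61) / (L * ((2 * S + 1 : ℕ) : ℝ))
        ≤ 64 * T ^ (3 * B + 61) / ((N : ℝ) / (9 * T) / T ^ (B + 1)) :=
          div_le_div_of_nonneg_left (by positivity) e6 e5
      _ = 576 * T ^ (4 * B + 63) / N := by
          field_simp
          ring
      _ ≤ T ^ 10 * T ^ (4 * B + 63) / N := by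
          apply div_le_div_of_nonneg_right _ hN0.le
          apply mul_le_mul_of_nonneg_right _ (by positivity)
          have : (2 : ℝ) ^ 10 ≤ T ^ 10 := pow_le_pow_left₀ (by norm_num) hT 10
          linarith [show (576 : ℝ) ≤ 2 ^ 10 by norm_num]
      _ = T ^ (4 * B + 73) / N := by
          rw [← pow_add]
          congr 2
          ring

end Pool.Agent.E8helper23.GB
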